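import Pool.Agent.H55.CU.Targets

/-!
# UMS: mass and first moment of a renewal function
-/

set_option autoImplicit false

open MeasureTheory ProbabilityTheory Filter Topology Pool.Agent.H95 Pool.Agent.H95.Cop
  Pool.Agent.H96.Cop Pool.Agent.H55.CU
open scoped ENNReal

namespace Pool.Agent.H13.CU

theorem sum_triR (M : ℕ) (f : ℕ → ℕ → ℝ) :
    ∑ j ∈ Finset.range M, ∑ t ∈ Finset.range (M - j), f j t =
    ∑ s ∈ Finset.range M, ∑ j ∈ Finset.range (s + 1), f j (s - j) := by
  have h1 : ∑ s ∈ Finset.range M, ∑ j ∈ Finset.range (s + 1), f j (s - j) =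
      ∑ j ∈ Finset.range M, ∑ s ∈ Finset.Ico j M, f j (s - j) := by
    apply Finset.sum_comm'
    intro s j
    simp only [Finset.mem_range, Finset.mem_Ico]
    omega
  rw [h1]
  apply Finset.sum_congr rfl
  intro j _
  rw [Finset.sum_Ico_eq_sum_range]
  apply Finset.sum_congr rfl
  intro t _
  congr 1
  omega

theorem pf_UMS : T_UMS := by
  intro κ w Q m1 hκ hw hw0 hwm hQ hρ
  have hu : ∀ n, 0 ≤ uu κ n := uu_nonneg κ hκ
  have hQ1 : 0 ≤ 1 - Q := by simpa using hρ 0
  have hQi : 0 ≤ 1 / Q := by positivity
  have step : ∀ s, uu κ (s + 1) * w (s + 1) ≤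
      ∑ j ∈ Finset.range (s + 1), (κ (j + 1) * w (j + 1)) * (uu κ (s - j) * w (s - j)) := by
    intro s
    rw [uu_succ, Finset.sum_mul]
    apply Finset.sum_le_sum
    intro j hj
    rw [Finset.mem_range] at hj
    have e1 : s + 1 = (j + 1) + (s - j) := by omega
    have h2 := hwm (j + 1) (s - j)
    rw [← e1] at h2
    calc κ (j + 1) * uu κ (s - j) * w (s + 1)
        ≤ κ (j + 1) * uu κ (s - j) * (w (j + 1) * w (s - j)) :=
          mul_le_mul_of_nonneg_left h2 (mul_nonneg (hκ _) (hu _))
      _ = _ := by ring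
  have A : ∀ N, ∑ s ∈ Finset.range N, uu κ s * w s ≤ 1 / Q := by
    intro N
    induction N with
    | zero => simpa using hQ.le
    | succ N ih =>
      rw [Finset.sum_range_succ', uu_zero, one_mul]
      have h1 : ∑ s ∈ Finset.range N, uu κ (s + 1) * w (s + 1) ≤ (1 - Q) * (1 / Q) := by
        calc ∑ s ∈ Finset.range N, uu κ (s + 1) * w (s + 1)
            ≤ ∑ s ∈ Finset.range N, ∑ j ∈ Finset.range (s + 1),
              (fun (j t : ℕ) => (κ (j + 1) * w (j + 1)) * (uu κ t * w t)) j (s - j) :=
              Finset.sum_le_sum (fun s _ => step s)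
          _ = ∑ j ∈ Finset.range N, ∑ t ∈ Finset.range (N - j),
              (κ (j + 1) * w (j + 1)) * (uu κ t * w t) :=
              (sum_triR N (fun (j t : ℕ) => (κ (j + 1) * w (j + 1)) * (uu κ t * w t))).symm
          _ ≤ ∑ j ∈ Finset.range N, (κ (j + 1) * w (j + 1)) * (1 / Q) := by
              apply Finset.sum_le_sum
              intro j _
              rw [← Finset.mul_sum]
              apply mul_le_mul_of_nonneg_left _ (mul_nonneg (hκ _) (hw _))
              refine le_trans (Finset.sum_le_sum_of_subset_of_nonneg ?_ ?_) ih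
              · intro t ht
                rw [Finset.mem_range] at ht ⊢
                omega
              · intro t _ _
                exact mul_nonneg (hu _) (hw _)
          _ ≤ (1 - Q) * (1 / Q) := by
              rw [← Finset.sum_mul]
              exact mul_le_mul_of_nonneg_right (hρ N) hQi
      have h2 : (1 - Q) * (1 / Q) + 1 = 1 / Q := by
        field_simp
        ring
      linarith
  refine ⟨A, fun hm N => ?_⟩
  have hm0 : 0 ≤ m1 := by simpa using hm 0
  have hB : 0 ≤ m1 / Q ^ 2 := by positivity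
  induction N with
  | zero => simpa using hB
  | succ N ih =>
    rw [Finset.sum_range_succ']
    have hs : ∀ s, ((s + 1 : ℕ) : ℝ) * (uu κ (s + 1) * w (s + 1)) ≤
        ∑ j ∈ Finset.range (s + 1), (fun (j t : ℕ) => (((j : ℝ) + 1) * (κ (j + 1) * w (j + 1))) *
          (uu κ t * w t) + (κ (j + 1) * w (j + 1)) * ((t : ℝ) * (uu κ t * w t))) j (s - j) := by
      intro s
      calc ((s + 1 : ℕ) : ℝ) * (uu κ (s + 1) * w (s + 1))
          ≤ ((s + 1 : ℕ) : ℝ) * ∑ j ∈ Finset.range (s + 1),
            (κ (j + 1) * w (j + 1)) * (uu κ (s - j) * w (s - j)) :=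
            mul_le_mul_of_nonneg_left (step s) (Nat.cast_nonneg _)
        _ = ∑ j ∈ Finset.range (s + 1), (fun (j t : ℕ) => (((j : ℝ) + 1) * (κ (j + 1) * w (j + 1))) *
          (uu κ t * w t) + (κ (j + 1) * w (j + 1)) * ((t : ℝ) * (uu κ t * w t))) j (s - j) := by
            rw [Finset.mul_sum]
            apply Finset.sum_congr rfl
            intro j hj
            rw [Finset.mem_range] at hj
            have e1 : ((s + 1 : ℕ) : ℝ) = ((j : ℝ) + 1) + ((s - j : ℕ) : ℝ) := by
              have : s + 1 = (j + 1) + (s - j) := by omega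
              rw [this]
              push_cast
              ring
            rw [e1]
            ring
    have h1 : ∑ s ∈ Finset.range N, ((s + 1 : ℕ) : ℝ) * (uu κ (s + 1) * w (s + 1)) ≤
        m1 * (1 / Q) + (1 - Q) * (m1 / Q ^ 2) := by
      calc ∑ s ∈ Finset.range N, ((s + 1 : ℕ) : ℝ) * (uu κ (s + 1) * w (s + 1))
          ≤ ∑ s ∈ Finset.range N, ∑ j ∈ Finset.range (s + 1),
            (fun (j t : ℕ) => (((j : ℝ) + 1) * (κ (j + 1) * w (j + 1))) * (uu κ t * w t) +
              (κ (j + 1) * w (j + 1)) * ((t : ℝ) * (uu κ t * w t))) j (s - j) :=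
            Finset.sum_le_sum (fun s _ => hs s)
        _ = ∑ j ∈ Finset.range N, ∑ t ∈ Finset.range (N - j),
            ((((j : ℝ) + 1) * (κ (j + 1) * w (j + 1))) * (uu κ t * w t) +
              (κ (j + 1) * w (j + 1)) * ((t : ℝ) * (uu κ t * w t))) :=
            (sum_triR N (fun (j t : ℕ) => (((j : ℝ) + 1) * (κ (j + 1) * w (j + 1))) * (uu κ t * w t) +
              (κ (j + 1) * w (j + 1)) * ((t : ℝ) * (uu κ t * w t)))).symm
        _ ≤ ∑ j ∈ Finset.range N, ((((j : ℝ) + 1) * (κ (j + 1) * w (j + 1))) * (1 / Q) +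
              (κ (j + 1) * w (j + 1)) * (m1 / Q ^ 2)) := by
            apply Finset.sum_le_sum
            intro j _
            rw [Finset.sum_add_distrib, ← Finset.mul_sum, ← Finset.mul_sum]
            apply add_le_add
            · apply mul_le_mul_of_nonneg_left (A _)
              exact mul_nonneg (by positivity) (mul_nonneg (hκ _) (hw _))
            · apply mul_le_mul_of_nonneg_left _ (mul_nonneg (hκ _) (hw _))
              refine le_trans (Finset.sum_le_sum_of_subset_of_nonneg ?_ ?_) ih
              · intro t ht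
                rw [Finset.mem_range] at ht ⊢
                omega
              · intro t _ _
                exact mul_nonneg (Nat.cast_nonneg _) (mul_nonneg (hu _) (hw _))
        _ ≤ m1 * (1 / Q) + (1 - Q) * (m1 / Q ^ 2) := by
            rw [Finset.sum_add_distrib, ← Finset.sum_mul, ← Finset.sum_mul]
            exact add_le_add (mul_le_mul_of_nonneg_right (hm N) hQi)
              (mul_le_mul_of_nonneg_right (hρ N) hB)
    have h2 : m1 * (1 / Q) + (1 - Q) * (m1 / Q ^ 2) = m1 / Q ^ 2 := by
      field_simp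
      ring
    simp only [Nat.cast_zero, zero_mul, add_zero]
    linarith

end Pool.Agent.H13.CU
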